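import Pool.Agent.Helper46.BW.Der

set_option autoImplicit false

namespace Pool.Agent.Helper53.BWp

open MeasureTheory Complex Pool.Agent.Helper46.BW

theorem t_log_le {t : ℝ} (h0 : 0 ≤ t) (h1 : t ≤ 1) : t * |Real.log t| ≤ 1 := by
  rcases h0.eq_or_lt with h | h
  · subst h; simp
  · have := Real.abs_log_mul_self_lt t h h1
    rw [abs_mul, abs_of_pos h] at this
    linarith [mul_comm t |Real.log t|]

theorem t_log2_le {t : ℝ} (h0 : 0 ≤ t) (h1 : t ≤ 1) : t * |Real.log t| ^ 2 ≤ 4 := by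
  have hs0 : 0 ≤ Real.sqrt t := Real.sqrt_nonneg t
  have hs1 : Real.sqrt t ≤ 1 := by
    rw [show (1:ℝ) = Real.sqrt 1 by simp]; exact Real.sqrt_le_sqrt h1
  have h2 := t_log_le hs0 hs1
  rw [Real.log_sqrt h0, abs_div, abs_two] at h2
  have h3 : 0 ≤ Real.sqrt t * (|Real.log t| / 2) := by positivity
  have h4 : (Real.sqrt t * (|Real.log t| / 2)) ^ 2 ≤ 1 := by nlinarith
  have h5 : (Real.sqrt t * (|Real.log t| / 2)) ^ 2 = t * |Real.log t| ^ 2 / 4 := by
    rw [mul_pow, Real.sq_sqrt h0]; ring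
  linarith

theorem D_bdd_small {z : ℂ} (h : ‖z‖ ≤ 1) : |D z| ≤ 2 * Real.pi * 2 := by
  refine (D_le z).trans ?_
  have h1 := t_log_le (norm_nonneg z) h
  have hp := Real.pi_pos
  apply mul_le_mul_of_nonneg_left _ (by positivity)
  nlinarith

theorem D_log_small {z : ℂ} (h : ‖z‖ ≤ 1) : |D z * Real.log ‖z‖| ≤ 2 * Real.pi * 5 := by
  rw [abs_mul]
  have h1 := t_log_le (norm_nonneg z) h
  have h2 := t_log2_le (norm_nonneg z) h
  have hp := Real.pi_pos
  calc |D z| * |Real.log ‖z‖| ≤ 2 * Real.pi * (‖z‖ * (1 + |Real.log ‖z‖|)) * |Real.log ‖z‖| :=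
        mul_le_mul_of_nonneg_right (D_le z) (abs_nonneg _)
    _ = 2 * Real.pi * (‖z‖ * |Real.log ‖z‖| + ‖z‖ * |Real.log ‖z‖| ^ 2) := by ring
    _ ≤ 2 * Real.pi * 5 := by
        apply mul_le_mul_of_nonneg_left _ (by positivity)
        linarith

theorem D_bdd (hinv : ∀ z : ℂ, D z⁻¹ = -D z) : ∃ C : ℝ, 0 ≤ C ∧ ∀ z : ℂ, |D z| ≤ C := by
  refine ⟨2 * Real.pi * 2, by have := Real.pi_pos; positivity, fun z => ?_⟩
  rcases le_or_gt ‖z‖ 1 with h | h
  · exact D_bdd_small h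
  · have h2 : ‖z⁻¹‖ ≤ 1 := by rw [norm_inv]; exact inv_le_one_of_one_le₀ h.le
    have := D_bdd_small h2
    rwa [hinv, abs_neg] at this

theorem D_log_bdd (hinv : ∀ z : ℂ, D z⁻¹ = -D z) :
    ∃ C : ℝ, 0 ≤ C ∧ ∀ z : ℂ, |D z * Real.log ‖z‖| ≤ C := by
  refine ⟨2 * Real.pi * 5, by have := Real.pi_pos; positivity, fun z => ?_⟩
  rcases le_or_gt ‖z‖ 1 with h | h
  · exact D_log_small h
  · have h2 : ‖z⁻¹‖ ≤ 1 := by rw [norm_inv]; exact inv_le_one_of_one_le₀ h.le
    have := D_log_small h2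
    rw [hinv, norm_inv, Real.log_inv, neg_mul_neg] at this
    exact this

/-- derivative along a ray -/
theorem D_ray_deriv {z : ℂ} (hz : 0 < z.im) {r : ℝ} (hr : 0 < r) :
    HasDerivAt (fun r : ℝ => D ((r : ℂ) * z))
      (-(Real.log ‖(r : ℂ) * z‖) * (z.im / normSq (1 - (r : ℂ) * z))) r := by
  have hz0 : z ≠ 0 := by rintro rfl; simp at hz
  have h0 : (r : ℂ) * z ≠ 0 := mul_ne_zero (by exact_mod_cast hr.ne') hz0
  have him : (1 - (r : ℂ) * z).im ≠ 0 := by
    have : (1 - (r : ℂ) * z).im = -(r * z.im) := by simp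
    rw [this]
    exact neg_ne_zero.mpr (mul_pos hr hz).ne'
  have h1 : 1 - (r : ℂ) * z ∈ slitPlane := Or.inr him
  have hne : 1 - (r : ℂ) * z ≠ 0 := slitPlane_ne_zero h1
  have hf := D_hasFDerivAt_off h1 h0
  have hg : HasDerivAt (fun r : ℝ => (r : ℂ) * z) z r := by
    have := (Complex.ofRealCLM.hasDerivAt (x := r)).mul_const z
    simpa using this
  have hc := hf.comp_hasDerivAt r hg
  refine hc.congr_deriv ?_
  have hr0 : (r : ℂ) ≠ 0 := by exact_mod_cast hr.ne'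
  show (-( (Real.log ‖1 - (r : ℂ) * z‖ : ℂ) / ((r : ℂ) * z)
    + (Real.log ‖(r : ℂ) * z‖ : ℂ) / (1 - (r : ℂ) * z)) * z).im = _
  have e1 : (-( (Real.log ‖1 - (r : ℂ) * z‖ : ℂ) / ((r : ℂ) * z)
    + (Real.log ‖(r : ℂ) * z‖ : ℂ) / (1 - (r : ℂ) * z)) * z)
      = ((-(Real.log ‖1 - (r : ℂ) * z‖ / r) : ℝ) : ℂ)
        + ((-(Real.log ‖(r : ℂ) * z‖) : ℝ) : ℂ) * (z / (1 - (r : ℂ) * z)) := by
    push_cast
    field_simp
    ring
  rw [e1, add_im, ofReal_im, zero_add, im_ofReal_mul, div_im]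
  simp only [sub_re, one_re, sub_im, one_im, re_ofReal_mul, im_ofReal_mul]
  ring

theorem D_ray_cont {z : ℂ} (hz : 0 < z.im) :
    ContinuousOn (fun r : ℝ => D ((r : ℂ) * z)) (Set.Icc 0 1) := by
  intro r hr
  rcases hr.1.eq_or_lt with h | h
  · -- at `0`
    subst h
    apply ContinuousAt.continuousWithinAt
    have hz0 : z ≠ 0 := by rintro rfl; simp at hz
    have hD0 : D ((0 : ℝ) * z) = 0 := by
      have := D_ofReal 0
      simpa using this
    rw [ContinuousAt, hD0]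
    have hlim : Filter.Tendsto (fun r : ℝ => 2 * Real.pi *
        (‖(r : ℂ) * z‖ * (1 + |Real.log ‖(r : ℂ) * z‖|))) (nhds 0) (nhds 0) := by
      have h1 : Continuous (fun r : ℝ => ‖(r : ℂ) * z‖) := by fun_prop
      have h2 : Continuous (fun t : ℝ => t + |t * Real.log t|) :=
        continuous_id.add (Real.continuous_mul_log.abs)
      have h3 : Continuous (fun r : ℝ => 2 * Real.pi *
        ((fun t : ℝ => t + |t * Real.log t|) ‖(r : ℂ) * z‖)) := continuous_const.mul (h2.comp h1)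
      have h4 := h3.tendsto 0
      simp only [ofReal_zero, zero_mul, norm_zero, abs_zero, add_zero, mul_zero] at h4
      refine h4.congr (fun r => ?_)
      have hn : 0 ≤ ‖(r : ℂ) * z‖ := norm_nonneg _
      rw [abs_mul, abs_of_nonneg hn]
      ring
    exact squeeze_zero_norm (fun r => D_le _) hlim
  · exact (D_ray_deriv hz h).continuousAt.continuousWithinAt

theorem D_pos_small {z : ℂ} (hz : 0 < z.im) (h1 : ‖z‖ ≤ 1) : 0 < D z := by
  have hz0 : z ≠ 0 := by rintro rfl; simp at hz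
  have hmono : StrictMonoOn (fun r : ℝ => D ((r : ℂ) * z)) (Set.Icc 0 1) := by
    apply strictMonoOn_of_deriv_pos (convex_Icc 0 1) (D_ray_cont hz)
    intro r hr
    rw [interior_Icc] at hr
    rw [(D_ray_deriv hz hr.1).deriv]
    have him : (1 - (r : ℂ) * z) ≠ 0 := by
      intro h
      have := congrArg Complex.im h
      simp at this
      rcases this with h | h
      · exact hr.1.ne' h
      · exact hz.ne' h
    have hN : 0 < normSq (1 - (r : ℂ) * z) := normSq_pos.mpr him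
    have hlog : Real.log ‖(r : ℂ) * z‖ < 0 := by
      apply Real.log_neg
      · exact norm_pos_iff.mpr (mul_ne_zero (by exact_mod_cast hr.1.ne') hz0)
      · rw [norm_mul, norm_real, Real.norm_of_nonneg hr.1.le]
        nlinarith [hr.2, hr.1, norm_pos_iff.mpr hz0]
    exact mul_pos (neg_pos.mpr hlog) (div_pos hz hN)
  have := hmono (Set.left_mem_Icc.mpr zero_le_one) (Set.right_mem_Icc.mpr zero_le_one) zero_lt_one
  have hD0 : D ((0 : ℝ) * z) = 0 := by
    have := D_ofReal 0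
    simpa using this
  simp only [hD0, ofReal_one, one_mul] at this
  exact this

theorem D_pos (hinv : ∀ z : ℂ, D z⁻¹ = -D z) {z : ℂ} (hz : 0 < z.im) : 0 < D z := by
  rcases le_or_gt ‖z‖ 1 with h | h
  · exact D_pos_small hz h
  · have hz0 : z ≠ 0 := by rintro rfl; simp at hz
    have hn : 0 < normSq z := normSq_pos.mpr hz0
    have e : D z = D ((starRingEnd ℂ) z⁻¹) := by rw [D_conj, hinv, neg_neg]
    rw [e]
    apply D_pos_small
    · rw [conj_im, inv_im, neg_div, neg_neg]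
      exact div_pos hz hn
    · rw [norm_conj, norm_inv]
      exact inv_le_one_of_one_le₀ h.le

end Pool.Agent.Helper53.BWp
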